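import Pool.Agent.Helper33.G5.Templ

/-!
# G5: the two templates
-/

set_option autoImplicit false

namespace Pool.Agent.Helper33.G5

open MeasureTheory Set
open scoped Real
open Pool.Agent.Helper33.G3

/-- the directions -/
def Vs (e₀ σ : ℝ) : Set ℂ := {v | ‖v‖ = 1 ∧ e₀ ≤ σ * v.re}

theorem Vs_compact (e₀ σ : ℝ) : IsCompact (Vs e₀ σ) := by
  refine (isCompact_closedBall (0:ℂ) 1).of_isClosed_subset ?_ ?_
  · exact (isClosed_eq continuous_norm continuous_const).inter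
      (isClosed_le continuous_const (continuous_const.mul Complex.continuous_re))
  · intro v hv
    rw [mem_closedBall_zero_iff]
    exact hv.1.le

/-! ### right half plane -/

theorem Pq_right : Pq kq gq where
  cont := by
    unfold kq
    fun_prop
  bl := by
    have x := BL_re
    have y := BL_im
    have x2 := x.mul x
    have y2 := y.mul y
    have e := (((((((((BL.const (-2)).add ((BL.const 4).mul x)).add ((BL.const (-25 / 6)).mul x2)).add
      ((BL.const (77 / 6)).mul y2)).add ((BL.const 2).mul (x2.mul x))).add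
      ((BL.const (-14)).mul (x.mul y2))).add ((BL.const (-12 / 5)).mul (x2.mul x2))).add
      ((BL.const (168 / 5)).mul (x2.mul y2))).add ((BL.const (-28)).mul (y2.mul y2)))
    refine (congrArg BL ?_).mp e
    funext z
    unfold kq
    ring
  disc := fun c r hr => disc_kq c hr
  abs := by
    intro X Y hX hY
    refine (kq_abs (T := 20) (by norm_num) hX hY).trans ?_
    unfold Bc
    norm_num
  abs5 := by
    intro X Y hX hY
    refine (kq_abs (T := 5) (by norm_num) hX hY).trans ?_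
    norm_num
  le := by
    intro a b
    rw [gq_eq]
    nlinarith [sq_nonneg (1 - a - 8 * b ^ 2)]
  one := by
    unfold gq
    norm_num

/-- the difference quotient in terms of real parts -/
noncomputable def Dr (m a b α β R : ℝ) : ℝ :=
  4 * α - 25 / 6 * (2 * a * α + m * α ^ 2) + 77 / 6 * (2 * b * β + m * β ^ 2) +
    2 * (3 * a ^ 2 * α + 3 * a * m * α ^ 2 + m ^ 2 * α ^ 3 + 3 * α * R / 4) -
    14 * (α * (b ^ 2 + m * (2 * b * β + m * β ^ 2)) + a * (2 * b * β + m * β ^ 2) + α * R / 4) -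
    12 / 5 * ((2 * a * α + m * α ^ 2) * (2 * a ^ 2 + m * (2 * a * α + m * α ^ 2)) +
      3 / 2 * R * (2 * a * α + m * α ^ 2)) +
    168 / 5 * ((2 * a * α + m * α ^ 2) * b ^ 2 + a ^ 2 * (2 * b * β + m * β ^ 2) +
      m * (2 * a * α + m * α ^ 2) * (2 * b * β + m * β ^ 2) +
      R / 4 * ((2 * a * α + m * α ^ 2) + (2 * b * β + m * β ^ 2))) -
    28 * ((2 * b * β + m * β ^ 2) * (2 * b ^ 2 + m * (2 * b * β + m * β ^ 2)) +
      3 / 2 * R * (2 * b * β + m * β ^ 2))

theorem Dr_eq (m a b α β R : ℝ) :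
    gq (a + m * α) (b + m * β) R - gq a b R = m * Dr m a b α β R := by
  unfold gq Dr
  ring

/-- the shifted centre -/
theorem shift_re (m : ℝ) (c v : ℂ) :
    ((1 - ((2 * m : ℝ) : ℂ) * v) * c).re = c.re + m * (-2 * (v.re * c.re - v.im * c.im)) := by
  simp only [Complex.mul_re, Complex.sub_re, Complex.one_re, Complex.ofReal_re, Complex.ofReal_im,
    Complex.sub_im, Complex.one_im, Complex.mul_im]
  ring

theorem shift_im (m : ℝ) (c v : ℂ) :
    ((1 - ((2 * m : ℝ) : ℂ) * v) * c).im = c.im + m * (-2 * (v.re * c.im + v.im * c.re)) := by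
  simp only [Complex.mul_re, Complex.sub_re, Complex.one_re, Complex.ofReal_re, Complex.ofReal_im,
    Complex.sub_im, Complex.one_im, Complex.mul_im]
  ring

theorem exists_right {e₀ : ℝ} (he : 0 < e₀) :
    ∃ (k : ℂ → ℝ) (Lk ρ kinf c1 c2 e2 m1 : ℝ), Tw (Vs e₀ 1) k Lk ρ kinf c1 c2 e2 m1 := by
  refine tw_of Pq_right (Vs_compact e₀ 1) (fun v hv => hv.1) (D := fun m c v =>
    Dr m c.re c.im (-2 * (v.re * c.re - v.im * c.im)) (-2 * (v.re * c.im + v.im * c.re))
      (c.re ^ 2 + c.im ^ 2)) ?_ ?_ (κ := e₀ / 2) (by linarith) ?_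
  · unfold Dr
    fun_prop
  · intro m c v
    rw [shift_re, shift_im, Dr_eq]
  · intro v hv
    have h := hv.2
    simp only [Complex.one_re, Complex.one_im]
    unfold Dr
    linarith

/-! ### left half plane -/

/-- the quadratic template -/
noncomputable def kl (X Y : ℝ) : ℝ := 3 / 4 - (X - 3 / 2) ^ 2 - Y ^ 2

/-- its average -/
noncomputable def gl (a b R : ℝ) : ℝ := 3 / 4 - (a - 3 / 2) ^ 2 - b ^ 2 - R / 2

theorem kl_cont (a b : ℝ) : Continuous fun z : ℂ => kl (a + z.re) (b + z.im) := by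
  unfold kl
  fun_prop

theorem disc_kl0 (a b : ℝ) {r : ℝ} (hr : 0 < r) :
    ∫ z in Metric.ball (0:ℂ) r, kl (a + z.re) (b + z.im) = π * r ^ 2 * gl a b (r ^ 2) := by
  rw [disc_polar (kl_cont a b) hr]
  have h1 : ∀ ρ : ℝ, ∫ θ in (-π)..π, ρ * kl (a + ρ * Real.cos θ) (b + ρ * Real.sin θ) =
      2 * π * ρ * (3 / 4 - (a - 3 / 2) ^ 2 - b ^ 2 - ρ ^ 2) := by
    intro ρ
    have h2 := tr_int (ρ * kl a b) (-(2 * (a - 3 / 2) * ρ ^ 2)) (-(2 * b * ρ ^ 2)) (-ρ ^ 3) 0
      (-ρ ^ 3) 0 0 0 0 0 0 0 0 0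
    have h3 : ∀ x : ℝ, ρ * kl (a + ρ * Real.cos x) (b + ρ * Real.sin x) =
        (ρ * kl a b) + (-(2 * (a - 3 / 2) * ρ ^ 2)) * Real.cos x +
      (-(2 * b * ρ ^ 2)) * Real.sin x + (-ρ ^ 3) * Real.cos x ^ 2 +
      0 * (Real.cos x * Real.sin x) + (-ρ ^ 3) * Real.sin x ^ 2 + 0 * Real.cos x ^ 3 +
      0 * (Real.cos x ^ 2 * Real.sin x) + 0 * (Real.cos x * Real.sin x ^ 2) +
      0 * Real.sin x ^ 3 + 0 * Real.cos x ^ 4 + 0 * (Real.cos x ^ 3 * Real.sin x) +
      0 * (Real.cos x ^ 2 * Real.sin x ^ 2) +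
      0 * (Real.cos x * Real.sin x ^ 3) + 0 * Real.sin x ^ 4 := by
      intro x
      unfold kl
      ring
    simp only [h3, h2]
    unfold kl
    ring
  have h4 : ∀ ρ : ℝ, ∫ θ in (-π)..π, ρ * kl (a + (⟨ρ * Real.cos θ, ρ * Real.sin θ⟩ : ℂ).re)
      (b + (⟨ρ * Real.cos θ, ρ * Real.sin θ⟩ : ℂ).im) = _ := fun ρ => h1 ρ
  simp only [h4]
  have h5 : ∀ ρ ∈ uIcc (0:ℝ) r, HasDerivAt (fun ρ : ℝ => 2 * π * (
      ρ ^ 2 / 2 * (3 / 4 - (a - 3 / 2) ^ 2 - b ^ 2) - ρ ^ 4 / 4))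
      (2 * π * ρ * (3 / 4 - (a - 3 / 2) ^ 2 - b ^ 2 - ρ ^ 2)) ρ := by
    intro ρ _
    have e := ((((hasDerivAt_pow 2 ρ).div_const 2).mul_const
      (3 / 4 - (a - 3 / 2) ^ 2 - b ^ 2)).sub ((hasDerivAt_pow 4 ρ).div_const 4)).const_mul (2 * π)
    refine HasDerivAt.congr_deriv e ?_
    push_cast
    ring
  rw [intervalIntegral.integral_eq_sub_of_hasDerivAt h5
    ((by fun_prop : Continuous _).intervalIntegrable _ _)]
  unfold gl
  ring

theorem disc_kl (c : ℂ) {r : ℝ} (hr : 0 < r) :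
    ∫ z in Metric.ball c r, kl z.re z.im = π * r ^ 2 * gl c.re c.im (r ^ 2) := by
  rw [← disc_kl0 c.re c.im hr]
  have h := (measurePreserving_add_left (volume : Measure ℂ) c).setIntegral_preimage_emb
    (MeasurableEquiv.addLeft c).measurableEmbedding (fun z : ℂ => kl z.re z.im)
    (Metric.ball c r)
  rw [← h]
  have e : (fun x => c + x) ⁻¹' Metric.ball c r = Metric.ball (0:ℂ) r := by
    ext x
    simp
  rw [e]
  rfl

theorem kl_abs {X Y T : ℝ} (hX : |X| ≤ T) (hY : |Y| ≤ T) : |kl X Y| ≤ 3 + 3 * T + 2 * T ^ 2 := by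
  have x2 : X ^ 2 ≤ T ^ 2 := by rw [← sq_abs]; exact pow_le_pow_left₀ (abs_nonneg _) hX 2
  have y2 : Y ^ 2 ≤ T ^ 2 := by rw [← sq_abs]; exact pow_le_pow_left₀ (abs_nonneg _) hY 2
  have x0 := sq_nonneg X
  have y0 := sq_nonneg Y
  obtain ⟨x1, x1'⟩ := abs_le.1 hX
  unfold kl
  rw [abs_le]
  constructor <;> nlinarith

theorem Pq_left : Pq kl gl where
  cont := by
    unfold kl
    fun_prop
  bl := by
    have x := BL_re
    have y := BL_im
    have e := (((BL.const (-3 / 2)).add ((BL.const 3).mul x)).add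
      ((BL.const (-1)).mul (x.mul x))).add ((BL.const (-1)).mul (y.mul y))
    refine (congrArg BL ?_).mp e
    funext z
    unfold kl
    ring
  disc := fun c r hr => disc_kl c hr
  abs := by
    intro X Y hX hY
    refine (kl_abs hX hY).trans ?_
    unfold Bc
    norm_num
  abs5 := by
    intro X Y hX hY
    refine (kl_abs hX hY).trans ?_
    norm_num
  le := by
    intro a b
    unfold gl
    nlinarith [sq_nonneg (a - 1), sq_nonneg b]
  one := by
    unfold gl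
    norm_num

theorem exists_left {e₀ : ℝ} (he : 0 < e₀) :
    ∃ (k : ℂ → ℝ) (Lk ρ kinf c1 c2 e2 m1 : ℝ), Tw (Vs e₀ (-1)) k Lk ρ kinf c1 c2 e2 m1 := by
  refine tw_of Pq_left (Vs_compact e₀ (-1)) (fun v hv => hv.1) (D := fun m c v =>
    -(2 * (c.re - 3 / 2) * (-2 * (v.re * c.re - v.im * c.im)) +
      m * (-2 * (v.re * c.re - v.im * c.im)) ^ 2) -
    (2 * c.im * (-2 * (v.re * c.im + v.im * c.re)) + m * (-2 * (v.re * c.im + v.im * c.re)) ^ 2))
    ?_ ?_ (κ := e₀) he ?_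
  · fun_prop
  · intro m c v
    rw [shift_re, shift_im]
    unfold gl
    ring
  · intro v hv
    have h := hv.2
    simp only [Complex.one_re, Complex.one_im]
    linarith

/-- templates for both half planes -/
theorem exists_tw {e₀ : ℝ} (he : 0 < e₀) {σ : ℝ} (hσ : σ = 1 ∨ σ = -1) :
    ∃ (k : ℂ → ℝ) (Lk ρ kinf c1 c2 e2 m1 : ℝ), Tw (Vs e₀ σ) k Lk ρ kinf c1 c2 e2 m1 := by
  rcases hσ with h | h
  · rw [h]
    exact exists_right he
  · rw [h]
    exact exists_left he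

end Pool.Agent.Helper33.G5
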