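import Pool.Agent.Helper33.G3.Templ

/-!
# G5: templates for complex exponents

`Tw V k ..` : as `Tm`, but the point moves by `2 m v`, `v ∈ V`. `V` is a closed subset of the unit circle in
the open right half plane (quartic template of G3) or in the open left half plane
(template `3/4 - |z - 3/2|²`).
-/

set_option autoImplicit false

namespace Pool.Agent.Helper33.G5

open MeasureTheory Set
open scoped Real
open Pool.Agent.Helper33.G3

/-- a template for the directions `V` -/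
structure Tw (V : Set ℂ) (k : ℂ → ℝ) (Lk ρ kinf c1 c2 e2 m1 : ℝ) : Prop where
  meas : Measurable k
  bd : ∀ z, |k z| ≤ 1
  lip : ∀ z z', |k z - k z'| ≤ Lk * ‖z - z'‖
  far : ∀ z, ρ ≤ ‖z‖ → k z = kinf
  hL : 0 < Lk
  hρ : 0 < ρ
  hc1 : 0 < c1
  hc2 : 0 < c2
  he2 : 0 < e2
  he2' : e2 ≤ 1 / 2
  hm1 : 0 < m1
  F1 : ∀ ζ : ℂ, ζ ≠ 0 → e2 ≤ ‖1 / ζ - 1‖ →
    ∫ z in Metric.ball (1 : ℂ) 1, (k (z / ζ) - k z) ≤ -c1
  F2 : ∀ v ∈ V, ∀ ζ : ℂ, ζ ≠ 0 → ‖1 / ζ - 1‖ ≤ e2 → ∀ m : ℝ, 0 < m → m ≤ m1 →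
    c2 * m ≤ ∫ z in Metric.ball (1 : ℂ) 1, (k ((z - ((2 * m : ℝ) : ℂ) * v) / ζ) - k (z / ζ))

/-- the data of a polynomial template: `q` the polynomial, `g a b R` its average over the disk with
centre `(a, b)` and radius `√R` -/
structure Pq (q : ℝ → ℝ → ℝ) (g : ℝ → ℝ → ℝ → ℝ) : Prop where
  cont : Continuous fun p : ℝ × ℝ => q p.1 p.2
  bl : BL fun z => q (cl z.re) (cl z.im)
  disc : ∀ (c : ℂ) (r : ℝ), 0 < r →
    ∫ z in Metric.ball c r, q z.re z.im = π * r ^ 2 * g c.re c.im (r ^ 2)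
  abs : ∀ X Y : ℝ, |X| ≤ 20 → |Y| ≤ 20 → |q X Y| ≤ Bc
  abs5 : ∀ X Y : ℝ, |X| ≤ 5 → |Y| ≤ 5 → |q X Y| ≤ 50000
  le : ∀ a b : ℝ, g a b (a ^ 2 + b ^ 2) ≤ -((a - 1) ^ 2 + b ^ 2)
  one : g 1 0 1 = 0

/-- the template before normalisation -/
noncomputable def kV (q : ℝ → ℝ → ℝ) (z : ℂ) : ℝ := ct z * (q (cl z.re) (cl z.im) + Bc) + -Bc

variable {q : ℝ → ℝ → ℝ} {g : ℝ → ℝ → ℝ → ℝ}

theorem BL_kV (h : Pq q g) : BL (kV q) :=
  (BL_ct.mul (h.bl.add (BL.const Bc))).add (BL.const (-Bc))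

theorem kV_eq {z : ℂ} (h : ‖z‖ ≤ 4) : kV q z = q z.re z.im := by
  unfold kV
  rw [ct_one h, cl_eq ((Complex.abs_re_le_norm z).trans (by linarith)),
    cl_eq ((Complex.abs_im_le_norm z).trans (by linarith))]
  ring

theorem kV_le (hP : Pq q g) {z : ℂ} (h : ‖z‖ ≤ 20) : kV q z ≤ q z.re z.im := by
  have h1 := hP.abs z.re z.im ((Complex.abs_re_le_norm z).trans h)
    ((Complex.abs_im_le_norm z).trans h)
  have h2 : -Bc ≤ q z.re z.im := (abs_le.1 h1).1
  rcases le_or_gt ‖z‖ 5 with h5 | h5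
  · unfold kV
    rw [cl_eq ((Complex.abs_re_le_norm z).trans h5), cl_eq ((Complex.abs_im_le_norm z).trans h5)]
    have h3 : ct z * (q z.re z.im + Bc) ≤ 1 * (q z.re z.im + Bc) :=
      mul_le_mul_of_nonneg_right (ct_le z) (by linarith)
    linarith
  · unfold kV
    rw [ct_zero h5.le]
    linarith

theorem kV_far {z : ℂ} (h : 5 ≤ ‖z‖) : kV q z = -Bc := by
  unfold kV
  rw [ct_zero h]
  ring

theorem kV_ind (hP : Pq q g) (z : ℂ) :
    kV q z ≤ (Metric.ball (0:ℂ) 5).indicator (fun _ => 50000 + Bc) z - Bc := by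
  rcases lt_or_ge ‖z‖ 5 with h | h
  · rw [indicator_of_mem (by rwa [mem_ball_zero_iff])]
    obtain ⟨h2, h3⟩ := abs_le.1 (hP.abs5 _ _ (cl_abs z.re) (cl_abs z.im))
    unfold kV
    have h4 : ct z * (q (cl z.re) (cl z.im) + Bc) ≤ 1 * (50000 + Bc) := by
      refine mul_le_mul (ct_le z) (by linarith) ?_ zero_le_one
      unfold Bc
      linarith
    linarith
  · rw [kV_far h, indicator_of_notMem (by rw [mem_ball_zero_iff]; linarith)]
    linarith

theorem q_contz (hP : Pq q g) : Continuous fun z : ℂ => q z.re z.im :=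
  hP.cont.comp (Complex.continuous_re.prodMk Complex.continuous_im)

/-- small disks: the exact value -/
theorem int_kV_eq (hP : Pq q g) {c : ℂ} {r : ℝ} (hr : 0 < r) (h : ‖c‖ + r ≤ 4) :
    ∫ z in Metric.ball c r, kV q z = π * r ^ 2 * g c.re c.im (r ^ 2) := by
  rw [← hP.disc c r hr]
  refine setIntegral_congr_fun measurableSet_ball fun z hz => kV_eq ?_
  rw [Metric.mem_ball, dist_eq_norm] at hz
  have h1 : ‖z‖ ≤ ‖z - c‖ + ‖c‖ := by
    have := norm_add_le (z - c) c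
    rwa [sub_add_cancel] at this
  linarith

/-- all disks through `0` -/
theorem int_kV_le (hP : Pq q g) {c : ℂ} (hc : c ≠ 0) {e : ℝ} (he : 0 ≤ e) (he1 : e ≤ 1)
    (h : e ≤ ‖c - 1‖) : ∫ z in Metric.ball c ‖c‖, kV q z ≤ -(π * ‖c‖ ^ 2 * e ^ 2) := by
  have hn : 0 < ‖c‖ := norm_pos_iff.2 hc
  have hπ := Real.pi_pos
  have he2 : e ^ 2 ≤ 1 := pow_le_one₀ he he1
  rcases le_or_gt ‖c‖ 10 with h10 | h10
  · have h1 : ∫ z in Metric.ball c ‖c‖, kV q z ≤ ∫ z in Metric.ball c ‖c‖, q z.re z.im := by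
      refine setIntegral_mono_on (intOn (BL_kV hP).cont _ _) (intOn (q_contz hP) _ _)
        measurableSet_ball fun z hz => kV_le hP ?_
      rw [Metric.mem_ball, dist_eq_norm] at hz
      have h1 : ‖z‖ ≤ ‖z - c‖ + ‖c‖ := by
        have := norm_add_le (z - c) c
        rwa [sub_add_cancel] at this
      linarith
    refine h1.trans ?_
    have h2 : ‖c‖ ^ 2 = c.re ^ 2 + c.im ^ 2 := by
      rw [← Complex.normSq_eq_norm_sq, Complex.normSq_apply]
      ring
    have h3 : ‖c - 1‖ ^ 2 = (c.re - 1) ^ 2 + c.im ^ 2 := by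
      rw [← Complex.normSq_eq_norm_sq, Complex.normSq_apply]
      simp only [Complex.sub_re, Complex.one_re, Complex.sub_im, Complex.one_im]
      ring
    have h4 : e ^ 2 ≤ ‖c - 1‖ ^ 2 := pow_le_pow_left₀ he h 2
    rw [hP.disc c _ hn, h2]
    have h5 : g c.re c.im (c.re ^ 2 + c.im ^ 2) ≤ -e ^ 2 := by
      have := hP.le c.re c.im
      linarith
    calc π * (c.re ^ 2 + c.im ^ 2) * g c.re c.im (c.re ^ 2 + c.im ^ 2) ≤
        π * (c.re ^ 2 + c.im ^ 2) * (-e ^ 2) := mul_le_mul_of_nonneg_left h5 (by positivity)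
      _ = -(π * (c.re ^ 2 + c.im ^ 2) * e ^ 2) := by ring
  · have hi : Integrable ((Metric.ball (0:ℂ) 5).indicator (fun _ => 50000 + Bc)) volume := by
      rw [integrable_indicator_iff measurableSet_ball]
      exact integrableOn_const measure_ball_lt_top.ne
    have h1 : ∫ z in Metric.ball c ‖c‖, kV q z ≤ ∫ z in Metric.ball c ‖c‖,
        ((Metric.ball (0:ℂ) 5).indicator (fun _ => 50000 + Bc) z - Bc) :=
      setIntegral_mono_on (intOn (BL_kV hP).cont _ _)
        (hi.integrableOn.sub (integrableOn_const measure_ball_lt_top.ne)) measurableSet_ball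
        fun z _ => kV_ind hP z
    refine h1.trans ?_
    rw [integral_sub hi.integrableOn (integrableOn_const measure_ball_lt_top.ne)]
    have h2 : ∫ z in Metric.ball c ‖c‖, (Metric.ball (0:ℂ) 5).indicator (fun _ => 50000 + Bc) z ≤
        (50000 + Bc) * (25 * π) := by
      have h3 : ∫ z in Metric.ball c ‖c‖,
          (Metric.ball (0:ℂ) 5).indicator (fun _ => 50000 + Bc) z ≤
          ∫ z, (Metric.ball (0:ℂ) 5).indicator (fun _ => 50000 + Bc) z := by
        refine setIntegral_le_integral hi (Filter.Eventually.of_forall fun z => ?_)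
        refine indicator_nonneg (fun _ _ => ?_) z
        unfold Bc
        norm_num
      refine h3.trans (le_of_eq ?_)
      rw [integral_indicator measurableSet_ball, setIntegral_const, smul_eq_mul, Measure.real,
        Complex.volume_ball]
      simp only [ENNReal.toReal_mul, ENNReal.toReal_pow]
      rw [ENNReal.toReal_ofReal (by norm_num)]
      simp only [ENNReal.coe_toReal, NNReal.coe_real_pi]
      ring
    have h4 : ∫ z in Metric.ball c ‖c‖, Bc = Bc * (‖c‖ ^ 2 * π) := by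
      rw [setIntegral_const, smul_eq_mul, Measure.real, Complex.volume_ball]
      simp only [ENNReal.toReal_mul, ENNReal.toReal_pow]
      rw [ENNReal.toReal_ofReal hn.le]
      simp only [ENNReal.coe_toReal, NNReal.coe_real_pi]
      ring
    rw [h4]
    have h5 : 100 ≤ ‖c‖ ^ 2 := by nlinarith
    have h6 : π * ‖c‖ ^ 2 * e ^ 2 ≤ π * ‖c‖ ^ 2 := mul_le_of_le_one_right (by positivity) he2
    unfold Bc at *
    nlinarith

/-- the general existence theorem: `D` is the difference quotient of the average when the point moves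
in the direction `v` -/
theorem tw_of (hP : Pq q g) {V : Set ℂ} (hV : IsCompact V) (hV1 : ∀ v ∈ V, ‖v‖ = 1)
    {D : ℝ → ℂ → ℂ → ℝ} (hD : Continuous fun p : (ℝ × ℂ) × ℂ => D p.1.1 p.1.2 p.2)
    (hDe : ∀ (m : ℝ) (c v : ℂ), g ((1 - ((2 * m : ℝ) : ℂ) * v) * c).re
      ((1 - ((2 * m : ℝ) : ℂ) * v) * c).im (c.re ^ 2 + c.im ^ 2) -
      g c.re c.im (c.re ^ 2 + c.im ^ 2) = m * D m c v) {κ : ℝ} (hκ : 0 < κ)
    (hDp : ∀ v ∈ V, κ < D 0 1 v) :
    ∃ (k : ℂ → ℝ) (Lk ρ kinf c1 c2 e2 m1 : ℝ), Tw V k Lk ρ kinf c1 c2 e2 m1 := by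
  obtain ⟨M₀, L₀, hM₀, hL₀, hM, hL⟩ := BL_kV hP
  have hev : ∀ᶠ x : ℝ × ℂ in nhds (0, 1), ∀ v ∈ V, κ < D x.1 x.2 v := by
    refine hV.eventually_forall_of_forall_eventually fun v hv => ?_
    exact hD.continuousAt.eventually_const_lt (hDp v hv)
  rw [Metric.eventually_nhds_iff] at hev
  obtain ⟨ε, hε, hDD⟩ := hev
  have hπ := Real.pi_pos
  obtain ⟨M, hMd⟩ : ∃ M : ℝ, M = M₀ + 1 := ⟨_, rfl⟩
  have hM1 : 0 < M := by linarith
  obtain ⟨e2, he2d⟩ : ∃ e2 : ℝ, e2 = min (ε / 2) (1 / 2) := ⟨_, rfl⟩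
  have he2 : 0 < e2 := by rw [he2d]; exact lt_min (by linarith) (by norm_num)
  have he2' : e2 ≤ 1 / 2 := by rw [he2d]; exact min_le_right _ _
  have he2'' : e2 < ε := by
    rw [he2d]
    exact (min_le_left _ _).trans_lt (by linarith)
  have hcont : Continuous (kV q) := (BL_kV hP).cont
  have hone : ∫ z in Metric.ball (1:ℂ) 1, kV q z = 0 := by
    rw [int_kV_eq hP one_pos (by norm_num)]
    simp only [Complex.one_re, Complex.one_im]
    rw [one_pow, hP.one, mul_zero]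
  refine ⟨fun z => M⁻¹ * kV q z, M⁻¹ * (L₀ + 1), 5, M⁻¹ * -Bc, M⁻¹ * (π * e2 ^ 2), M⁻¹ * (π * κ),
    e2, min (ε / 2) (1 / 12), ⟨?_, ?_, ?_, ?_, ?_, ?_, ?_, ?_, he2, he2', ?_, ?_, ?_⟩⟩
  · exact (continuous_const.mul hcont).measurable
  · intro z
    rw [abs_mul, abs_of_pos (inv_pos.2 hM1), inv_mul_le_one₀ hM1]
    exact (hM z).trans (by linarith)
  · intro z w
    rw [← mul_sub, abs_mul, abs_of_pos (inv_pos.2 hM1), mul_assoc]
    refine mul_le_mul_of_nonneg_left ?_ (inv_pos.2 hM1).le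
    refine (hL z w).trans ?_
    have := norm_nonneg (z - w)
    nlinarith
  · intro z hz
    rw [kV_far hz]
  · positivity
  · norm_num
  · positivity
  · positivity
  · exact lt_min (by linarith) (by norm_num)
  · intro ζ hζ h
    have hc : (1 / ζ) ≠ 0 := one_div_ne_zero hζ
    have e1 : ∀ z : ℂ, M⁻¹ * kV q (z / ζ) - M⁻¹ * kV q z =
        M⁻¹ * (kV q ((z - 0) * (1 / ζ)) - kV q z) := by
      intro z
      rw [sub_zero, mul_one_div]
      ring
    simp only [e1]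
    have k1 : Continuous fun z : ℂ => kV q ((z - 0) * (1 / ζ)) := hcont.comp (by fun_prop)
    rw [integral_const_mul, integral_sub (intOn k1 _ _) (intOn hcont _ _), hone, sub_zero,
      ball_scale hc]
    have h1 := int_kV_le hP hc he2.le (by linarith) h
    have h2 : (1 - (0:ℂ)) * (1 / ζ) = 1 / ζ := by ring
    rw [h2, ← mul_neg]
    refine mul_le_mul_of_nonneg_left ?_ (inv_pos.2 hM1).le
    have hn : 0 < ‖1 / ζ‖ := norm_pos_iff.2 hc
    rw [inv_mul_le_iff₀ (by positivity)]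
    linarith
  · intro v hv ζ hζ h m hm hm1
    have hc : (1 / ζ) ≠ 0 := one_div_ne_zero hζ
    obtain ⟨c, hcd⟩ : ∃ c : ℂ, c = 1 / ζ := ⟨_, rfl⟩
    rw [← hcd] at h hc
    have hmε : m < ε := by
      have := hm1.trans (min_le_left _ _)
      linarith
    have hm4 : m ≤ 1 / 12 := hm1.trans (min_le_right _ _)
    have e1 : ∀ z : ℂ, M⁻¹ * kV q ((z - ((2 * m : ℝ) : ℂ) * v) / ζ) - M⁻¹ * kV q (z / ζ) =
        M⁻¹ * (kV q ((z - ((2 * m : ℝ) : ℂ) * v) * c) - kV q ((z - 0) * c)) := by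
      intro z
      rw [sub_zero, hcd, mul_one_div, mul_one_div]
      ring
    simp only [e1]
    have k1 : Continuous fun z : ℂ => kV q ((z - ((2 * m : ℝ) : ℂ) * v) * c) :=
      hcont.comp (by fun_prop)
    have k2 : Continuous fun z : ℂ => kV q ((z - 0) * c) := hcont.comp (by fun_prop)
    rw [integral_const_mul, integral_sub (intOn k1 _ _) (intOn k2 _ _), ball_scale hc,
      ball_scale hc]
    have hn : 0 < ‖c‖ := norm_pos_iff.2 hc
    have hn1 : ‖c‖ ≤ 3 / 2 := by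
      have := norm_add_le (c - 1) 1
      rw [sub_add_cancel, norm_one] at this
      linarith
    have h2 : (1 - (0:ℂ)) * c = c := by ring
    have h4 : ‖(1 - ((2 * m : ℝ) : ℂ) * v) * c‖ ≤ 7 / 6 * ‖c‖ := by
      rw [norm_mul]
      refine mul_le_mul_of_nonneg_right ?_ hn.le
      refine (norm_sub_le _ _).trans ?_
      rw [norm_one, norm_mul, hV1 v hv, Complex.norm_real, Real.norm_eq_abs,
        abs_of_nonneg (by linarith)]
      linarith
    have h5 : ‖c‖ ^ 2 = c.re ^ 2 + c.im ^ 2 := by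
      rw [← Complex.normSq_eq_norm_sq, Complex.normSq_apply]
      ring
    rw [h2, int_kV_eq hP hn (by linarith), int_kV_eq hP hn (by linarith)]
    rw [h5, mul_assoc M⁻¹]
    refine mul_le_mul_of_nonneg_left ?_ (inv_pos.2 hM1).le
    have h6 := hDe m c v
    have h7 : κ < D m c v := by
      refine hDD (y := (m, c)) ?_ v hv
      rw [Prod.dist_eq]
      simp only
      refine max_lt ?_ ?_
      · rw [Real.dist_eq, sub_zero, abs_of_pos hm]
        exact hmε
      · rw [dist_eq_norm]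
        linarith
    have h8 : 0 < c.re ^ 2 + c.im ^ 2 := by rw [← h5]; positivity
    rw [← mul_sub, ← mul_sub, h6]
    have h9 : (c.re ^ 2 + c.im ^ 2)⁻¹ * (π * (c.re ^ 2 + c.im ^ 2) * (m * D m c v)) =
        π * m * D m c v := by
      field_simp
    rw [h9]
    have h10 : 0 < π * m := by positivity
    nlinarith

end Pool.Agent.Helper33.G5
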