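import Pool.Agent.Helper17.G3.Bound
import Pool.Agent.Helper89.G3.Cov

/-!
# G5: the majorant of the key inequality, and the change of variables
-/

set_option autoImplicit false

namespace Pool.Agent.Helper33.G5

open MeasureTheory Set
open scoped Real
open Pool.Agent.Helper17.G3 (hk Dk Bt pos_part measurable_hk abs_hk_le int_Bt le_Bt int_one meas_Bt
  vol_Bt int_hk_Bt)

/-- the error density -/
noncomputable def er (δ m : ℝ) (y : ℂ) : ℝ :=
  2 * √m * ‖y - 0‖ ^ (-(3 / 2) : ℝ) + δ * (9 * ‖y - 0‖ ^ (-1 : ℝ) + 1)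

theorem er_nonneg {δ m : ℝ} (hδ : 0 < δ) (y : ℂ) : 0 ≤ er δ m y := by
  unfold er
  positivity

theorem er_int {δ m : ℝ} : IntegrableOn (er δ m) Bt := by
  have h1 := int_Bt (a := 3 / 2) (by norm_num) (by norm_num) 0
  have h3 := int_Bt (a := 1) (by norm_num) (by norm_num) 0
  exact (h1.const_mul _).add (((h3.const_mul 9).add int_one).const_mul _)

theorem er_le {δ m : ℝ} (hδ : 0 < δ) : ∫ y in Bt, er δ m y ≤ 1000 * (√m + δ) := by
  have h1 := int_Bt (a := 3 / 2) (by norm_num) (by norm_num) 0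
  have h3 := int_Bt (a := 1) (by norm_num) (by norm_num) 0
  have l1 := le_Bt (a := 3 / 2) (by norm_num) (by norm_num) 0
  have l3 := le_Bt (a := 1) (by norm_num) (by norm_num) 0
  have e1 : ∫ y in Bt, er δ m y = 2 * √m * (∫ y in Bt, ‖y - 0‖ ^ (-(3 / 2) : ℝ)) +
      δ * (9 * (∫ y in Bt, ‖y - 0‖ ^ (-1 : ℝ)) + ∫ y in Bt, (1 : ℝ)) := by
    unfold er
    have i9 : IntegrableOn (fun y : ℂ => 9 * ‖y - 0‖ ^ (-1 : ℝ)) Bt := h3.const_mul 9
    have i31 : IntegrableOn (fun y : ℂ => 9 * ‖y - 0‖ ^ (-1 : ℝ) + 1) Bt := i9.add int_one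
    rw [integral_add (h1.const_mul _) (i31.const_mul _), integral_const_mul, integral_const_mul,
      integral_add i9 int_one, integral_const_mul]
  have v1 : ∫ y in Bt, (1 : ℝ) = 100 * π := by
    rw [setIntegral_const, smul_eq_mul, mul_one, measureReal_def, Bt, Complex.volume_closedBall,
      ENNReal.toReal_mul, ENNReal.toReal_pow, ENNReal.toReal_ofReal (by norm_num)]
    norm_num
  have hπ : π ≤ 3.1416 := Real.pi_lt_d4.le
  have hπ0 := Real.pi_pos
  have r1 : (10 : ℝ) ^ (2 - 3 / 2 : ℝ) ≤ 3.2 := by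
    have h7 : ((10 : ℝ) ^ (2 - 3 / 2 : ℝ)) ^ 2 ≤ 3.2 ^ 2 := by
      rw [← Real.rpow_natCast, ← Real.rpow_mul (by norm_num)]
      norm_num
    exact le_of_sq_le_sq h7 (by norm_num)
  have r3 : (10 : ℝ) ^ (2 - 1 : ℝ) = 10 := by norm_num
  have b1 : 2 * π / (2 - 3 / 2) * (10 : ℝ) ^ (2 - 3 / 2 : ℝ) ≤ 42 := by
    have : 2 * π / (2 - 3 / 2) = 4 * π := by ring
    rw [this]
    nlinarith
  have b3 : 2 * π / (2 - 1) * (10 : ℝ) ^ (2 - 1 : ℝ) ≤ 63 := by
    rw [r3]
    have : 2 * π / (2 - 1) = 2 * π := by ring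
    rw [this]
    linarith
  have hm := Real.sqrt_nonneg m
  rw [e1, v1]
  have c1 : 2 * √m * (∫ y in Bt, ‖y - 0‖ ^ (-(3 / 2) : ℝ)) ≤ 2 * √m * 42 :=
    mul_le_mul_of_nonneg_left (l1.trans b1) (by positivity)
  have c2 : δ * (9 * (∫ y in Bt, ‖y - 0‖ ^ (-1 : ℝ)) + 100 * π) ≤ δ * 1000 :=
    mul_le_mul_of_nonneg_left (by linarith) hδ.le
  nlinarith

theorem er_meas {δ m : ℝ} : Measurable (er δ m) := by
  unfold er
  fun_prop

/-- the majorant -/
theorem maj {m δ ν₀ Kc I C₀ : ℝ} {g c : ℂ → ℝ} (hm : 0 < m) (hm1 : m ≤ 1 / 100) (hδ : 0 < δ)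
    (hδ1 : δ ≤ 1 / 100) (hg : Measurable g) (hν : 0 < ν₀) (hν1 : ν₀ ≤ 1 / 8)
    (hg1 : ∀ y, |g y| ≤ ν₀) (hI : ∫ y in Dk, g y ≤ I) (hc : Measurable c) (hc0 : ∀ y, 0 ≤ c y)
    (hci : Integrable c) (hcK : ∫ y, c y ≤ Kc) (hC : 10 ≤ C₀) (hcz : ∀ y, C₀ < ‖y‖ → c y = 0) :
    ∃ Ht : ℂ → ℝ, Measurable Ht ∧ Integrable Ht ∧ (∀ y, 0 ≤ Ht y) ∧
      (∀ y, 2 * m * (hk y + g y + c y - 1 / 2 + er δ m y / 2) ≤ Ht y) ∧
      (∀ y, C₀ < ‖y‖ → Ht y = 0) ∧
      ∫ y, Ht y ≤ 2 * m * (π / 2 + I + 10 * π * ν₀ ^ 2 + Kc + 500 * (√m + δ)) := by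
  have hb : Measurable fun y => max (hk y + g y - 1 / 2) 0 :=
    ((measurable_hk.add hg).sub_const _).max measurable_const
  have hgi : IntegrableOn g Bt := by
    refine Integrable.mono' (g := fun _ => ν₀) (integrableOn_const vol_Bt) hg.aestronglyMeasurable
      (Filter.Eventually.of_forall fun w => ?_)
    rw [Real.norm_eq_abs]
    exact hg1 w
  have i1 : IntegrableOn (fun y => max (hk y + g y - 1 / 2) 0) Bt :=
    ((int_hk_Bt.add hgi).sub (integrableOn_const vol_Bt)).pos_part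
  have i2 : IntegrableOn (fun y => er δ m y / 2) Bt := er_int.div_const 2
  have i3 : IntegrableOn (fun y => max (hk y + g y - 1 / 2) 0 + er δ m y / 2) Bt := i1.add i2
  refine ⟨fun y => 2 * m * (Bt.indicator (fun y => max (hk y + g y - 1 / 2) 0 + er δ m y / 2) y +
    c y), ?_, ?_, ?_, ?_, ?_, ?_⟩
  · exact measurable_const.mul
      (((hb.add (er_meas.div_const 2)).indicator meas_Bt).add hc)
  · exact ((i3.integrable_indicator meas_Bt).add hci).const_mul _
  · intro y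
    have h1 : 0 ≤ Bt.indicator (fun y => max (hk y + g y - 1 / 2) 0 + er δ m y / 2) y := by
      refine indicator_nonneg (fun y _ => ?_) y
      have h2 := er_nonneg (m := m) hδ y
      have h3 := le_max_right (hk y + g y - 1 / 2) 0
      linarith
    have h2 := hc0 y
    positivity
  · intro y
    refine mul_le_mul_of_nonneg_left ?_ (by positivity)
    by_cases hy : y ∈ Bt
    · rw [indicator_of_mem hy]
      have h3 := le_max_left (hk y + g y - 1 / 2) 0
      linarith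
    · rw [indicator_of_notMem hy, zero_add]
      have hy1 : 10 < ‖y‖ := by
        by_contra h
        refine hy ?_
        rw [Bt, mem_closedBall_zero_iff]
        linarith
      have h1 : ‖y‖ ^ (-1 : ℝ) ≤ 1 / 10 := by
        rw [Real.rpow_neg_one, ← one_div]
        exact one_div_le_one_div_of_le (by norm_num) hy1.le
      have h2 : hk y ≤ 1 / 10 := ((le_abs_self _).trans (abs_hk_le y)).trans h1
      have h3 : ‖y‖ ^ (-(3 / 2) : ℝ) ≤ ‖y‖ ^ (-1 : ℝ) :=
        Real.rpow_le_rpow_of_exponent_le (by linarith) (by norm_num)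
      have h4 : √m ≤ 1 / 10 := by
        rw [Real.sqrt_le_left (by norm_num)]
        linarith
      have h5 := (abs_le.1 (hg1 y)).2
      have h6 := Real.sqrt_nonneg m
      have h7 : 0 ≤ ‖y‖ ^ (-(3 / 2) : ℝ) := Real.rpow_nonneg (norm_nonneg _) _
      have h8 : 0 ≤ ‖y‖ ^ (-1 : ℝ) := Real.rpow_nonneg (norm_nonneg _) _
      unfold er
      rw [sub_zero]
      have h9 : 2 * √m * ‖y‖ ^ (-(3 / 2) : ℝ) ≤ 2 * (1 / 10) * (1 / 10) :=
        mul_le_mul (by linarith) (h3.trans h1) h7 (by norm_num)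
      have h10 : δ * (9 * ‖y‖ ^ (-1 : ℝ) + 1) ≤ 1 / 100 * (9 * (1 / 10) + 1) :=
        mul_le_mul hδ1 (by linarith) (by linarith) (by norm_num)
      linarith
  · intro y hy
    have h1 : y ∉ Bt := by
      intro h
      rw [Bt, mem_closedBall_zero_iff] at h
      linarith
    show 2 * m * (Bt.indicator (fun y => max (hk y + g y - 1 / 2) 0 + er δ m y / 2) y + c y) = 0
    rw [indicator_of_notMem h1, hcz y hy]
    ring
  · have h1 := pos_part (g := fun y => g y / ν₀) (hg.div_const _) (fun w => by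
      rw [abs_div, abs_of_pos hν, div_le_one hν]
      exact hg1 w) (ν := ν₀) (by rwa [abs_of_pos hν])
    have e2 : ∀ w : ℂ, ν₀ * (g w / ν₀) = g w := fun w => by field_simp
    simp only [e2] at h1
    rw [integral_div, mul_div_cancel₀ _ hν.ne'] at h1
    have h2 := er_le (m := m) hδ
    rw [integral_const_mul, integral_add (i3.integrable_indicator meas_Bt) hci,
      integral_indicator meas_Bt, integral_add i1 i2, integral_div]
    refine mul_le_mul_of_nonneg_left ?_ (by positivity)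
    linarith

/-- change of variables -/
theorem lcov {a : ℂ} (ha : a ≠ 0) (f : ℂ → ENNReal) :
    ∫⁻ z, f z = ENNReal.ofReal (‖a‖ ^ 2) * ∫⁻ w, f (a * w) := by
  have hd : ∀ x ∈ (univ : Set ℂ),
      HasFDerivWithinAt (fun w : ℂ => a * w) (a • (1 : ℂ →L[ℝ] ℂ)) univ x := by
    intro x _
    have h1 : HasFDerivAt (fun w : ℂ => a • w) (a • (1 : ℂ →L[ℝ] ℂ)) x :=
      (hasFDerivAt_id x).const_smul a
    exact h1.hasFDerivWithinAt
  have hi : InjOn (fun w : ℂ => a * w) univ := by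
    intro x _ y _ hxy
    exact mul_left_cancel₀ ha hxy
  have h := lintegral_image_eq_lintegral_abs_det_fderiv_mul volume MeasurableSet.univ hd hi f
  have h2 : (fun w : ℂ => a * w) '' univ = univ := by
    rw [image_univ]
    refine range_eq_univ.2 fun y => ⟨y / a, ?_⟩
    show a * (y / a) = y
    field_simp
  rw [h2, Measure.restrict_univ] at h
  rw [h]
  simp_rw [Pool.Agent.Helper89.G3.Cov_det, abs_of_nonneg (sq_nonneg ‖a‖)]
  rw [lintegral_const_mul' _ _ ENNReal.ofReal_ne_top]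

end Pool.Agent.Helper33.G5
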