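import Pool.Agent.Helper26.G4.Defs2

/-!
# G5: the integral of the strong Marshall conjecture in Stolz angles at the extreme point

`L = log (R² / (R² - 1))`, `|h| ≤ L`; `ζ = 1 - h / L`. From the strict second order bound near `2` in the
directions `e |τ| ≤ Re τ` (`main5_dir`) follows the bound of `∫ exp (a |h|² / L)`, `a < 1`, over the part of
the circle where `ζ` lies in a Stolz angle (`stolz`), by a finite grid of exponents `τ = 2 conj ζ'`: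
`a (|1-ζ|² + κ |ζ|²) ≤ |1-ζ|² - |ζ-ζ'|² + 4 g |ζ'|²`.
-/

set_option autoImplicit false

namespace Pool.Agent.Helper33.G5

open MeasureTheory Set Real
open Pool.Agent.Helper26.G4 (Sg)

/-- the algebra of one exponent -/
theorem st_alg (a g κ M η : ℝ) (ha1 : a < 1) (ζ ζ' : ℂ) (h1 : ‖ζ - ζ'‖ ≤ η)
    (hκ : κ * ‖ζ‖ ^ 2 - M * η ^ 2 ≤ 4 * g * ‖ζ'‖ ^ 2)
    (h8 : 1 / 8 ≤ ‖1 - ζ‖ ^ 2 + κ * ‖ζ‖ ^ 2) (hη : (1 + M) * η ^ 2 ≤ (1 - a) / 8) :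
    a * (‖1 - ζ‖ ^ 2 + κ * ‖ζ‖ ^ 2) ≤
      ((2 - 2 * (starRingEnd ℂ) ζ') * (1 - ζ)).re - (1 - 2 * ζ'.re + (1 - 4 * g) * ‖ζ'‖ ^ 2) := by
  have e1 : ∀ z : ℂ, ‖z‖ ^ 2 = z.re ^ 2 + z.im ^ 2 := by
    intro z
    rw [← Complex.normSq_eq_norm_sq, Complex.normSq_apply]
    ring
  have h2 : ‖ζ - ζ'‖ ^ 2 ≤ η ^ 2 := pow_le_pow_left₀ (norm_nonneg _) h1 2
  have e2 : ((2 - 2 * (starRingEnd ℂ) ζ') * (1 - ζ)).re -
      (1 - 2 * ζ'.re + (1 - 4 * g) * ‖ζ'‖ ^ 2) =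
      ‖1 - ζ‖ ^ 2 - ‖ζ - ζ'‖ ^ 2 + 4 * g * ‖ζ'‖ ^ 2 := by
    rw [e1 ζ', e1 (1 - ζ), e1 (ζ - ζ')]
    have c1 : (2 : ℂ).re = 2 := rfl
    have c2 : (2 : ℂ).im = 0 := rfl
    simp only [Complex.mul_re, Complex.sub_re, Complex.one_re, Complex.sub_im, Complex.one_im,
      Complex.conj_re, Complex.conj_im, Complex.mul_im, c1, c2]
    ring
  rw [e2]
  have h3 : (1 - a) / 8 ≤ (1 - a) * (‖1 - ζ‖ ^ 2 + κ * ‖ζ‖ ^ 2) := by
    have : 0 < 1 - a := by linarith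
    nlinarith
  nlinarith

/-- the integral part -/
theorem st_int {a g κ : ℝ} {Z : Set ℂ} (hZ : MeasurableSet Z) (T : Finset ℂ)
    (hT : ∀ ζ ∈ Z, ∃ ζ' ∈ T, a * (‖1 - ζ‖ ^ 2 + κ * ‖ζ‖ ^ 2) ≤
      ((2 - 2 * (starRingEnd ℂ) ζ') * (1 - ζ)).re - (1 - 2 * ζ'.re + (1 - 4 * g) * ‖ζ'‖ ^ 2))
    {L : ℝ} (hL : 0 < L) {w : ℝ → ℂ} (hw : Continuous w) (C : ℂ → ℝ)
    (H : ∀ ζ' ∈ T, (1 / (2 * π)) * ∫ θ in (0:ℝ)..(2 * π),
        ‖Complex.exp ((2 - 2 * (starRingEnd ℂ) ζ') * w θ)‖ ≤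
          C ζ' * exp (L * (1 - 2 * ζ'.re + (1 - 4 * g) * ‖ζ'‖ ^ 2))) :
    (1 / (2 * π)) * ∫ θ in {θ : ℝ | θ ∈ Ioc 0 (2 * π) ∧ 1 - w θ / L ∈ Z},
        exp (a * (‖w θ‖ ^ 2 + κ * ‖(L : ℂ) - w θ‖ ^ 2) / L) ≤ ∑ ζ' ∈ T, |C ζ'| := by
  have hpi : 0 < 1 / (2 * π) := by positivity
  have hLc : (L : ℂ) ≠ 0 := by exact_mod_cast hL.ne'
  obtain ⟨G, hG⟩ : ∃ G : ℝ → ℝ, G = fun θ => ∑ ζ' ∈ T,
      ‖Complex.exp ((2 - 2 * (starRingEnd ℂ) ζ') * w θ)‖ *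
        exp (-(L * (1 - 2 * ζ'.re + (1 - 4 * g) * ‖ζ'‖ ^ 2))) := ⟨_, rfl⟩
  have hc1 : ∀ ζ' : ℂ, Continuous fun θ => ‖Complex.exp ((2 - 2 * (starRingEnd ℂ) ζ') * w θ)‖ := by
    intro ζ'
    fun_prop
  have hGc : Continuous G := by
    rw [hG]
    exact continuous_finsetSum _ fun ζ' _ => (hc1 ζ').mul continuous_const
  have hG0 : ∀ θ, 0 ≤ G θ := by
    intro θ
    rw [hG]
    exact Finset.sum_nonneg fun i _ => by positivity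
  have hmeas : Measurable fun θ => 1 - w θ / L := by
    have : Continuous fun θ => 1 - w θ / L := by fun_prop
    exact this.measurable
  have hSm : MeasurableSet {θ : ℝ | θ ∈ Ioc 0 (2 * π) ∧ 1 - w θ / L ∈ Z} :=
    measurableSet_Ioc.inter (hmeas hZ)
  have hSs : {θ : ℝ | θ ∈ Ioc 0 (2 * π) ∧ 1 - w θ / L ∈ Z} ⊆ Ioc 0 (2 * π) := fun _ h => h.1
  have hGI : IntegrableOn G (Ioc 0 (2 * π)) := hGc.integrableOn_Ioc
  have hfI : IntegrableOn (fun θ => exp (a * (‖w θ‖ ^ 2 + κ * ‖(L : ℂ) - w θ‖ ^ 2) / L))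
      (Ioc 0 (2 * π)) := by
    have : Continuous (fun θ => exp (a * (‖w θ‖ ^ 2 + κ * ‖(L : ℂ) - w θ‖ ^ 2) / L)) := by
      fun_prop
    exact this.integrableOn_Ioc
  have h1 : ∫ θ in {θ : ℝ | θ ∈ Ioc 0 (2 * π) ∧ 1 - w θ / L ∈ Z},
      exp (a * (‖w θ‖ ^ 2 + κ * ‖(L : ℂ) - w θ‖ ^ 2) / L) ≤
      ∫ θ in {θ : ℝ | θ ∈ Ioc 0 (2 * π) ∧ 1 - w θ / L ∈ Z}, G θ := by
    refine setIntegral_mono_on (hfI.mono_set hSs) (hGI.mono_set hSs) hSm ?_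
    intro θ hθ
    obtain ⟨ζ', hζ', h2⟩ := hT _ hθ.2
    rw [hG]
    refine le_trans ?_ (Finset.single_le_sum (f := fun ζ' : ℂ =>
      ‖Complex.exp ((2 - 2 * (starRingEnd ℂ) ζ') * w θ)‖ *
        exp (-(L * (1 - 2 * ζ'.re + (1 - 4 * g) * ‖ζ'‖ ^ 2)))) (fun i _ => by positivity) hζ')
    rw [Complex.norm_exp, ← exp_add, exp_le_exp]
    have e1 : (1 : ℂ) - (1 - w θ / L) = w θ / L := by ring
    have e2 : (1 : ℂ) - w θ / L = ((L : ℂ) - w θ) / L := by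
      field_simp
    rw [e1, e2] at h2
    rw [norm_div, norm_div, Complex.norm_real, Real.norm_eq_abs, abs_of_pos hL] at h2
    have e3 : ((2 - 2 * (starRingEnd ℂ) ζ') * (w θ / L)).re =
        ((2 - 2 * (starRingEnd ℂ) ζ') * w θ).re / L := by
      rw [← mul_div_assoc, Complex.div_ofReal_re]
    rw [e3] at h2
    have h3 := mul_le_mul_of_nonneg_left h2 hL.le
    have e4 : L * (a * ((‖w θ‖ / L) ^ 2 + κ * (‖(L : ℂ) - w θ‖ / L) ^ 2)) =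
        a * (‖w θ‖ ^ 2 + κ * ‖(L : ℂ) - w θ‖ ^ 2) / L := by
      field_simp
    have e5 : L * (((2 - 2 * (starRingEnd ℂ) ζ') * w θ).re / L -
        (1 - 2 * ζ'.re + (1 - 4 * g) * ‖ζ'‖ ^ 2)) = ((2 - 2 * (starRingEnd ℂ) ζ') * w θ).re +
        -(L * (1 - 2 * ζ'.re + (1 - 4 * g) * ‖ζ'‖ ^ 2)) := by
      rw [mul_sub, mul_div_cancel₀ _ hL.ne']
      ring
    rw [e4, e5] at h3
    exact h3
  have h3 : ∫ θ in {θ : ℝ | θ ∈ Ioc 0 (2 * π) ∧ 1 - w θ / L ∈ Z}, G θ ≤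
      ∫ θ in Ioc 0 (2 * π), G θ :=
    setIntegral_mono_set hGI (Filter.Eventually.of_forall hG0) (Filter.Eventually.of_forall hSs)
  have h4 : ∫ θ in Ioc 0 (2 * π), G θ = ∑ ζ' ∈ T,
      (∫ θ in (0:ℝ)..(2 * π), ‖Complex.exp ((2 - 2 * (starRingEnd ℂ) ζ') * w θ)‖) *
        exp (-(L * (1 - 2 * ζ'.re + (1 - 4 * g) * ‖ζ'‖ ^ 2))) := by
    rw [← intervalIntegral.integral_of_le (by positivity), hG,
      intervalIntegral.integral_finsetSum]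
    · refine Finset.sum_congr rfl fun j _ => ?_
      rw [intervalIntegral.integral_mul_const]
    · intro j _
      exact ((hc1 j).mul continuous_const).intervalIntegrable _ _
  calc (1 / (2 * π)) * ∫ θ in {θ : ℝ | θ ∈ Ioc 0 (2 * π) ∧ 1 - w θ / L ∈ Z},
        exp (a * (‖w θ‖ ^ 2 + κ * ‖(L : ℂ) - w θ‖ ^ 2) / L)
      ≤ (1 / (2 * π)) * ∫ θ in Ioc 0 (2 * π), G θ :=
        mul_le_mul_of_nonneg_left (h1.trans h3) hpi.le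
    _ = ∑ ζ' ∈ T, ((1 / (2 * π)) *
      ∫ θ in (0:ℝ)..(2 * π), ‖Complex.exp ((2 - 2 * (starRingEnd ℂ) ζ') * w θ)‖) *
        exp (-(L * (1 - 2 * ζ'.re + (1 - 4 * g) * ‖ζ'‖ ^ 2))) := by
        rw [h4, Finset.mul_sum]
        exact Finset.sum_congr rfl fun j _ => by ring
    _ ≤ ∑ ζ' ∈ T, |C ζ'| := by
        refine Finset.sum_le_sum fun ζ' hζ' => ?_
        calc _ ≤ (C ζ' * exp (L * (1 - 2 * ζ'.re + (1 - 4 * g) * ‖ζ'‖ ^ 2))) *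
              exp (-(L * (1 - 2 * ζ'.re + (1 - 4 * g) * ‖ζ'‖ ^ 2))) :=
              mul_le_mul_of_nonneg_right (H ζ' hζ') (exp_pos _).le
          _ = C ζ' := by
              rw [mul_assoc, ← exp_add]
              rw [add_neg_cancel, exp_zero, mul_one]
          _ ≤ |C ζ'| := le_abs_self _

/-- a finite net of a bounded set with a point -/
theorem st_net {Z : Set ℂ} (hb : Bornology.IsBounded Z) {η : ℝ} (hη : 0 < η) :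
    ∃ T : Finset ℂ, (∀ ζ' ∈ T, ζ' ∈ Z) ∧ ∀ ζ ∈ Z, ∃ ζ' ∈ T, ‖ζ - ζ'‖ ≤ η := by
  obtain ⟨t, ht, hf, hc⟩ := Metric.finite_approx_of_totallyBounded
    (hb.isCompact_closure.totallyBounded.subset subset_closure) η hη
  refine ⟨hf.toFinset, fun ζ' h => ht (hf.mem_toFinset.1 h), fun ζ hζ => ?_⟩
  have h1 := hc hζ
  rw [mem_iUnion₂] at h1
  obtain ⟨y, hy, h2⟩ := h1
  refine ⟨y, hf.mem_toFinset.2 hy, ?_⟩
  rw [Metric.mem_ball, dist_eq_norm] at h2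
  exact h2.le

/-- the region and the exponents -/
theorem st_main {Z : Set ℂ} (hZ : MeasurableSet Z) (hb : Bornology.IsBounded Z) {ρ : ℝ}
    (hρ : 0 < ρ) (hρZ : ∀ x : ℝ, 0 < x → x ≤ ρ → (x : ℂ) ∈ Z) {g κ M : ℝ} (hM : 0 ≤ M)
    (hκ : ∀ ζ ζ' : ℂ, ∀ η : ℝ, ‖ζ - ζ'‖ ≤ η → κ * ‖ζ‖ ^ 2 - M * η ^ 2 ≤ 4 * g * ‖ζ'‖ ^ 2)
    (h8 : ∀ ζ ∈ Z, 1 / 8 ≤ ‖1 - ζ‖ ^ 2 + κ * ‖ζ‖ ^ 2)
    (H : ∀ ζ' ∈ Z, ζ' ≠ 0 → ∃ C : ℝ, ∀ ψ h : ℂ → ℂ, Sg ψ h → ∀ R : ℝ, 1 < R →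
      (1 / (2 * π)) * ∫ θ in (0:ℝ)..(2 * π),
        ‖Complex.exp ((2 - 2 * (starRingEnd ℂ) ζ') *
          h ((R : ℂ) * Complex.exp ((θ : ℂ) * Complex.I)))‖ ≤
      C * (R ^ 2 / (R ^ 2 - 1)) ^ (1 - 2 * ζ'.re + (1 - 4 * g) * ‖ζ'‖ ^ 2)) :
    ∀ a : ℝ, a < 1 → ∃ C : ℝ, ∀ R : ℝ, 1 < R → ∀ ψ h : ℂ → ℂ, Sg ψ h →
      (1 / (2 * π)) * ∫ θ in {θ : ℝ | θ ∈ Ioc 0 (2 * π) ∧
          1 - h ((R : ℂ) * Complex.exp ((θ : ℂ) * Complex.I)) /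
            (Real.log (R ^ 2 / (R ^ 2 - 1)) : ℝ) ∈ Z},
        Real.exp (a * (‖h ((R : ℂ) * Complex.exp ((θ : ℂ) * Complex.I))‖ ^ 2 +
          κ * ‖((Real.log (R ^ 2 / (R ^ 2 - 1)) : ℝ) : ℂ) -
            h ((R : ℂ) * Complex.exp ((θ : ℂ) * Complex.I))‖ ^ 2)
          / Real.log (R ^ 2 / (R ^ 2 - 1))) ≤ C := by
  classical
  intro a ha1
  choose! Cf hCf using H
  obtain ⟨η, hη, hη2⟩ : ∃ η : ℝ, 0 < η ∧ (1 + M) * η ^ 2 ≤ (1 - a) / 8 := by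
    have h1 : 0 < (1 - a) / (8 * (1 + M)) := by
      have : 0 < 1 - a := by linarith
      positivity
    refine ⟨√((1 - a) / (8 * (1 + M))), Real.sqrt_pos.2 h1, ?_⟩
    rw [Real.sq_sqrt h1.le]
    apply le_of_eq
    field_simp
  obtain ⟨T, hT1, hT2⟩ := st_net (Z := Z \ {0}) (hb.subset diff_subset) hη
  obtain ⟨x, hx⟩ : ∃ x : ℝ, x = min η ρ := ⟨_, rfl⟩
  have hx0 : 0 < x := by rw [hx]; exact lt_min hη hρ
  have hxη : x ≤ η := by rw [hx]; exact min_le_left _ _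
  have hxρ : x ≤ ρ := by rw [hx]; exact min_le_right _ _
  have hxZ : (x : ℂ) ∈ Z := hρZ x hx0 hxρ
  have hxc : (x : ℂ) ≠ 0 := by exact_mod_cast hx0.ne'
  refine ⟨∑ ζ' ∈ insert (x : ℂ) T, |Cf ζ'|, ?_⟩
  intro R hR ψ h hS
  have hR2 : 0 < R ^ 2 - 1 := by nlinarith
  have hE : 1 < R ^ 2 / (R ^ 2 - 1) := by
    rw [one_lt_div hR2]
    linarith
  have hL : 0 < Real.log (R ^ 2 / (R ^ 2 - 1)) := Real.log_pos hE
  have hmem : ∀ θ : ℝ, (R : ℂ) * Complex.exp ((θ : ℂ) * Complex.I) ∈ {z : ℂ | 1 < ‖z‖} := by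
    intro θ
    show 1 < ‖(R : ℂ) * Complex.exp ((θ : ℂ) * Complex.I)‖
    rw [norm_mul, Complex.norm_exp_ofReal_mul_I, mul_one, Complex.norm_real, Real.norm_eq_abs,
      abs_of_pos (by linarith)]
    exact hR
  have hcont : Continuous (fun θ : ℝ => h ((R : ℂ) * Complex.exp ((θ : ℂ) * Complex.I))) :=
    hS.hcont.comp_continuous (by fun_prop) hmem
  refine st_int (g := g) hZ (insert (x : ℂ) T) ?_ hL hcont Cf ?_
  · intro ζ hζ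
    by_cases h0 : ζ = 0
    · refine ⟨x, Finset.mem_insert_self _ _, ?_⟩
      have h1 : ‖ζ - (x : ℂ)‖ ≤ η := by
        rw [h0, zero_sub, norm_neg, Complex.norm_real, Real.norm_eq_abs, abs_of_pos hx0]
        exact hxη
      exact st_alg a g κ M η ha1 ζ x h1 (hκ _ _ _ h1) (h8 ζ hζ) hη2
    · obtain ⟨ζ', h1, h2⟩ := hT2 ζ ⟨hζ, h0⟩
      exact ⟨ζ', Finset.mem_insert_of_mem h1, st_alg a g κ M η ha1 ζ ζ' h2 (hκ _ _ _ h2) (h8 ζ hζ)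
        hη2⟩
  · intro ζ' hζ'
    have h1 : ζ' ∈ Z ∧ ζ' ≠ 0 := by
      rcases Finset.mem_insert.1 hζ' with h | h
      · rw [h]
        exact ⟨hxZ, hxc⟩
      · exact ⟨(hT1 _ h).1, (hT1 _ h).2⟩
    have h2 := hCf ζ' h1.1 h1.2 ψ h hS R hR
    rw [Real.rpow_def_of_pos (by linarith)] at h2
    exact h2

/-- Stolz angles at the extreme point: from the strict second order bound near `2`. -/
theorem stolz (H : ∀ e₀ : ℝ, 0 < e₀ → ∃ c δ₀ : ℝ, 0 < c ∧ 0 < δ₀ ∧ ∀ τ : ℂ, τ ≠ 0 → ‖τ‖ < δ₀ →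
      e₀ * ‖τ‖ ≤ τ.re → ∃ C : ℝ, ∀ ψ h : ℂ → ℂ, Sg ψ h → ∀ R : ℝ, 1 < R →
      (1 / (2 * π)) * ∫ θ in (0:ℝ)..(2 * π),
        ‖Complex.exp ((2 - τ) * h ((R : ℂ) * Complex.exp ((θ : ℂ) * Complex.I)))‖ ≤
      C * (R ^ 2 / (R ^ 2 - 1)) ^ (1 - τ.re + (1 / 4 - c) * ‖τ‖ ^ 2)) :
    ∀ K : ℝ, 0 < K → ∃ κ ϑ : ℝ, 0 < κ ∧ 0 < ϑ ∧ ∀ a : ℝ, 0 < a → a < 1 → ∃ C : ℝ,
      ∀ R : ℝ, 1 < R → ∀ ψ h : ℂ → ℂ, Sg ψ h →
      (1 / (2 * π)) * ∫ θ in {θ : ℝ | θ ∈ Ioc 0 (2 * π) ∧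
          (1 - ϑ) * Real.log (R ^ 2 / (R ^ 2 - 1)) ≤
            (h ((R : ℂ) * Complex.exp ((θ : ℂ) * Complex.I))).re ∧
          |(h ((R : ℂ) * Complex.exp ((θ : ℂ) * Complex.I))).im| ≤
            K * (Real.log (R ^ 2 / (R ^ 2 - 1)) -
              (h ((R : ℂ) * Complex.exp ((θ : ℂ) * Complex.I))).re)},
        Real.exp (a * (‖h ((R : ℂ) * Complex.exp ((θ : ℂ) * Complex.I))‖ ^ 2 +
          κ * ‖((Real.log (R ^ 2 / (R ^ 2 - 1)) : ℝ) : ℂ) -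
            h ((R : ℂ) * Complex.exp ((θ : ℂ) * Complex.I))‖ ^ 2)
          / Real.log (R ^ 2 / (R ^ 2 - 1))) ≤ C := by
  intro K hK
  obtain ⟨c, δ₀, hc, hδ, H⟩ := H (1 / (1 + K)) (by positivity)
  obtain ⟨ϑ, hϑ, hϑ1, hϑ2⟩ : ∃ ϑ : ℝ, 0 < ϑ ∧ ϑ ≤ 1 / 4 ∧ 4 * ((1 + K) * ϑ) ≤ δ₀ := by
    refine ⟨min (1 / 4) (δ₀ / (4 * (1 + K))), by positivity, min_le_left _ _, ?_⟩
    calc 4 * ((1 + K) * min (1 / 4) (δ₀ / (4 * (1 + K)))) ≤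
          4 * ((1 + K) * (δ₀ / (4 * (1 + K)))) :=
          mul_le_mul_of_nonneg_left
            (mul_le_mul_of_nonneg_left (min_le_right _ _) (by positivity)) (by norm_num)
      _ = δ₀ := by field_simp
  obtain ⟨Z, hZd⟩ : ∃ Z : Set ℂ, Z = {ζ : ℂ | 0 ≤ ζ.re ∧ ζ.re ≤ ϑ ∧ |ζ.im| ≤ K * ζ.re} := ⟨_, rfl⟩
  have hnorm : ∀ ζ ∈ Z, ‖ζ‖ ≤ (1 + K) * ζ.re := by
    intro ζ hζ
    rw [hZd] at hζ
    obtain ⟨h1, h2, h3⟩ := hζ
    have h4 := Complex.norm_le_abs_re_add_abs_im ζ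
    rw [abs_of_nonneg h1] at h4
    linarith
  have hZm : MeasurableSet Z := by
    have m1 : Measurable fun ζ : ℂ => |ζ.im| :=
      (continuous_abs.comp Complex.continuous_im).measurable
    have m2 : Measurable fun ζ : ℂ => K * ζ.re :=
      (continuous_const.mul Complex.continuous_re).measurable
    rw [hZd]
    exact (measurableSet_le measurable_const Complex.measurable_re).inter
      ((measurableSet_le Complex.measurable_re measurable_const).inter (measurableSet_le m1 m2))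
  have hZb : Bornology.IsBounded Z := by
    rw [isBounded_iff_forall_norm_le]
    refine ⟨(1 + K) * ϑ, fun ζ hζ => (hnorm ζ hζ).trans ?_⟩
    rw [hZd] at hζ
    exact mul_le_mul_of_nonneg_left hζ.2.1 (by linarith)
  have hmain := st_main hZm hZb hϑ (g := c) (κ := 2 * c) (M := 4 * c) ?_ (by positivity) ?_ ?_ ?_
  · refine ⟨2 * c, ϑ, by linarith, hϑ, fun a _ ha1 => ?_⟩
    obtain ⟨C, hC⟩ := hmain a ha1
    refine ⟨C, fun R hR ψ h hS => ?_⟩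
    have h1 := hC R hR ψ h hS
    have hR2 : 0 < R ^ 2 - 1 := by nlinarith
    have hE : 1 < R ^ 2 / (R ^ 2 - 1) := by
      rw [one_lt_div hR2]
      linarith
    have hL : 0 < Real.log (R ^ 2 / (R ^ 2 - 1)) := Real.log_pos hE
    have e1 : {θ : ℝ | θ ∈ Ioc 0 (2 * π) ∧
          (1 - ϑ) * Real.log (R ^ 2 / (R ^ 2 - 1)) ≤
            (h ((R : ℂ) * Complex.exp ((θ : ℂ) * Complex.I))).re ∧
          |(h ((R : ℂ) * Complex.exp ((θ : ℂ) * Complex.I))).im| ≤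
            K * (Real.log (R ^ 2 / (R ^ 2 - 1)) -
              (h ((R : ℂ) * Complex.exp ((θ : ℂ) * Complex.I))).re)} =
        {θ : ℝ | θ ∈ Ioc 0 (2 * π) ∧
          1 - h ((R : ℂ) * Complex.exp ((θ : ℂ) * Complex.I)) /
            (Real.log (R ^ 2 / (R ^ 2 - 1)) : ℝ) ∈ Z} := by
      ext θ
      obtain ⟨L, hLd⟩ : ∃ L : ℝ, L = Real.log (R ^ 2 / (R ^ 2 - 1)) := ⟨_, rfl⟩
      obtain ⟨w, hw⟩ : ∃ w : ℂ, w = h ((R : ℂ) * Complex.exp ((θ : ℂ) * Complex.I)) := ⟨_, rfl⟩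
      rw [hZd]
      simp only [mem_ofPred_eq]
      rw [← hLd, ← hw]
      rw [← hLd] at hL
      refine and_congr_right fun _ => ?_
      have r1 : (1 - w / (L : ℂ)).re = (L - w.re) / L := by
        rw [Complex.sub_re, Complex.one_re, Complex.div_ofReal_re]
        field_simp
      have r2 : (1 - w / (L : ℂ)).im = -(w.im / L) := by
        rw [Complex.sub_im, Complex.one_im, Complex.div_ofReal_im]
        ring
      rw [r1, r2, abs_neg, abs_div, abs_of_pos hL, div_le_iff₀ hL, div_le_iff₀ hL]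
      have r3 : K * ((L - w.re) / L) * L = K * (L - w.re) := by field_simp
      rw [r3]
      constructor
      · rintro ⟨q1, q2⟩
        have q3 : 0 ≤ L - w.re := by
          have : 0 ≤ K * (L - w.re) := (abs_nonneg _).trans q2
          exact nonneg_of_mul_nonneg_right this hK
        exact ⟨div_nonneg q3 hL.le, by linarith, q2⟩
      · rintro ⟨q1, q2, q3⟩
        exact ⟨by linarith, q3⟩
    rw [e1]
    exact h1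
  · intro x hx0 hx1
    rw [hZd]
    refine ⟨?_, ?_, ?_⟩
    · simpa using hx0.le
    · simpa using hx1
    · simp only [Complex.ofReal_im, abs_zero, Complex.ofReal_re]
      positivity
  · intro ζ ζ' η h
    have h1 : ‖ζ‖ ≤ ‖ζ'‖ + η := by
      have := norm_add_le (ζ - ζ') ζ'
      rw [sub_add_cancel] at this
      linarith
    have h2 : ‖ζ‖ ^ 2 ≤ (‖ζ'‖ + η) ^ 2 := pow_le_pow_left₀ (norm_nonneg _) h1 2
    have h3 : (‖ζ'‖ + η) ^ 2 ≤ 2 * ‖ζ'‖ ^ 2 + 2 * η ^ 2 := by nlinarith [sq_nonneg (‖ζ'‖ - η)]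
    nlinarith
  · intro ζ hζ
    rw [hZd] at hζ
    have h1 : (3:ℝ) / 4 ≤ ‖1 - ζ‖ := by
      refine le_trans ?_ (Complex.re_le_norm _)
      rw [Complex.sub_re, Complex.one_re]
      linarith [hζ.2.1]
    have h2 : ((3:ℝ) / 4) ^ 2 ≤ ‖1 - ζ‖ ^ 2 := pow_le_pow_left₀ (by norm_num) h1 2
    have h3 : 0 ≤ 2 * c * ‖ζ‖ ^ 2 := by positivity
    nlinarith
  · intro ζ' hζ' h0
    have h1 := hnorm ζ' hζ'
    have h5 : ζ'.re ≤ ϑ := by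
      rw [hZd] at hζ'
      exact hζ'.2.1
    have h6 : 0 < ‖ζ'‖ := norm_pos_iff.2 h0
    have n1 : ‖2 * (starRingEnd ℂ) ζ'‖ = 2 * ‖ζ'‖ := by
      rw [norm_mul, RCLike.norm_conj]
      norm_num
    have n2 : (2 * (starRingEnd ℂ) ζ').re = 2 * ζ'.re := by
      simp
    obtain ⟨C, hC⟩ := H (2 * (starRingEnd ℂ) ζ') (by
      intro h
      rw [h, norm_zero] at n1
      linarith) (by
      rw [n1]
      have : (1 + K) * ζ'.re ≤ (1 + K) * ϑ := mul_le_mul_of_nonneg_left h5 (by linarith)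
      nlinarith) (by
      rw [n1, n2, one_div, inv_mul_le_iff₀ (by positivity)]
      nlinarith)
    refine ⟨C, fun ψ h hS R hR => ?_⟩
    have h2 := hC ψ h hS R hR
    rw [n1, n2] at h2
    have e2 : 1 - 2 * ζ'.re + (1 / 4 - c) * (2 * ‖ζ'‖) ^ 2 =
        1 - 2 * ζ'.re + (1 - 4 * c) * ‖ζ'‖ ^ 2 := by ring
    rw [e2] at h2
    exact h2

/-- A full neighbourhood of the extreme point, with an arbitrarily small relative loss of second order: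
from the sharp second order bound near `2`. -/
theorem near1 (H : ∀ ε : ℝ, 0 < ε → ∃ δ₀ : ℝ, 0 < δ₀ ∧ ∀ τ : ℂ, τ ≠ 0 → ‖τ‖ < δ₀ →
      ∃ C : ℝ, ∀ ψ h : ℂ → ℂ, Sg ψ h → ∀ R : ℝ, 1 < R →
      (1 / (2 * π)) * ∫ θ in (0:ℝ)..(2 * π),
        ‖Complex.exp ((2 - τ) * h ((R : ℂ) * Complex.exp ((θ : ℂ) * Complex.I)))‖ ≤
      C * (R ^ 2 / (R ^ 2 - 1)) ^ (1 - τ.re + (1 / 4 + ε) * ‖τ‖ ^ 2)) :
    ∀ ε : ℝ, 0 < ε → ∃ ϑ : ℝ, 0 < ϑ ∧ ∀ a : ℝ, 0 < a → a < 1 → ∃ C : ℝ,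
      ∀ R : ℝ, 1 < R → ∀ ψ h : ℂ → ℂ, Sg ψ h →
      (1 / (2 * π)) * ∫ θ in {θ : ℝ | θ ∈ Ioc 0 (2 * π) ∧
          ‖((Real.log (R ^ 2 / (R ^ 2 - 1)) : ℝ) : ℂ) -
            h ((R : ℂ) * Complex.exp ((θ : ℂ) * Complex.I))‖ ≤
              ϑ * Real.log (R ^ 2 / (R ^ 2 - 1))},
        Real.exp (a * (‖h ((R : ℂ) * Complex.exp ((θ : ℂ) * Complex.I))‖ ^ 2 -
          ε * ‖((Real.log (R ^ 2 / (R ^ 2 - 1)) : ℝ) : ℂ) -
            h ((R : ℂ) * Complex.exp ((θ : ℂ) * Complex.I))‖ ^ 2)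
          / Real.log (R ^ 2 / (R ^ 2 - 1))) ≤ C := by
  intro ε hε
  obtain ⟨δ₀, hδ, H⟩ := H (ε / 8) (by positivity)
  obtain ⟨ϑ, hϑ, hϑ1, hϑ2, hϑ3⟩ : ∃ ϑ : ℝ, 0 < ϑ ∧ ϑ ≤ 1 / 4 ∧ 4 * ϑ ≤ δ₀ ∧ ε * ϑ ≤ 1 / 2 := by
    refine ⟨min (1 / 4) (min (δ₀ / 4) (1 / (2 * ε))), by positivity, min_le_left _ _, ?_, ?_⟩
    · have := (min_le_right (1 / 4) (min (δ₀ / 4) (1 / (2 * ε)))).trans (min_le_left _ _)
      linarith
    · calc ε * min (1 / 4) (min (δ₀ / 4) (1 / (2 * ε))) ≤ ε * (1 / (2 * ε)) :=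
            mul_le_mul_of_nonneg_left ((min_le_right _ _).trans (min_le_right _ _)) hε.le
        _ = 1 / 2 := by field_simp
  have hmain := st_main (Z := Metric.closedBall 0 ϑ) measurableSet_closedBall
    Metric.isBounded_closedBall hϑ (g := -(ε / 8)) (κ := -ε) (M := ε) ?_ hε.le ?_ ?_ ?_
  · refine ⟨ϑ, hϑ, fun a _ ha1 => ?_⟩
    obtain ⟨C, hC⟩ := hmain a ha1
    refine ⟨C, fun R hR ψ h hS => ?_⟩
    have h1 := hC R hR ψ h hS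
    have hR2 : 0 < R ^ 2 - 1 := by nlinarith
    have hE : 1 < R ^ 2 / (R ^ 2 - 1) := by
      rw [one_lt_div hR2]
      linarith
    have hL : 0 < Real.log (R ^ 2 / (R ^ 2 - 1)) := Real.log_pos hE
    have e1 : {θ : ℝ | θ ∈ Ioc 0 (2 * π) ∧
          ‖((Real.log (R ^ 2 / (R ^ 2 - 1)) : ℝ) : ℂ) -
            h ((R : ℂ) * Complex.exp ((θ : ℂ) * Complex.I))‖ ≤
              ϑ * Real.log (R ^ 2 / (R ^ 2 - 1))} =
        {θ : ℝ | θ ∈ Ioc 0 (2 * π) ∧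
          1 - h ((R : ℂ) * Complex.exp ((θ : ℂ) * Complex.I)) /
            (Real.log (R ^ 2 / (R ^ 2 - 1)) : ℝ) ∈ Metric.closedBall (0 : ℂ) ϑ} := by
      ext θ
      obtain ⟨L, hLd⟩ : ∃ L : ℝ, L = Real.log (R ^ 2 / (R ^ 2 - 1)) := ⟨_, rfl⟩
      obtain ⟨w, hw⟩ : ∃ w : ℂ, w = h ((R : ℂ) * Complex.exp ((θ : ℂ) * Complex.I)) := ⟨_, rfl⟩
      simp only [mem_ofPred_eq]
      rw [← hLd, ← hw]
      rw [← hLd] at hL
      have hLc : (L : ℂ) ≠ 0 := by exact_mod_cast hL.ne'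
      refine and_congr_right fun _ => ?_
      rw [mem_closedBall_zero_iff]
      have r1 : 1 - w / (L : ℂ) = ((L : ℂ) - w) / L := by field_simp
      rw [r1, norm_div, Complex.norm_real, Real.norm_eq_abs, abs_of_pos hL, div_le_iff₀ hL]
    rw [e1]
    have e2 : ∀ x y : ℝ, x - ε * y = x + -ε * y := fun x y => by ring
    simp only [e2]
    exact h1
  · intro x hx0 hx1
    rw [mem_closedBall_zero_iff, Complex.norm_real, Real.norm_eq_abs, abs_of_pos hx0]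
    exact hx1
  · intro ζ ζ' η h
    have h1 : ‖ζ'‖ ≤ ‖ζ‖ + η := by
      have h0 := norm_add_le (ζ' - ζ) ζ
      rw [sub_add_cancel, norm_sub_rev] at h0
      linarith
    have h2 : ‖ζ'‖ ^ 2 ≤ (‖ζ‖ + η) ^ 2 := pow_le_pow_left₀ (norm_nonneg _) h1 2
    have h3 : (‖ζ‖ + η) ^ 2 ≤ 2 * ‖ζ‖ ^ 2 + 2 * η ^ 2 := by nlinarith [sq_nonneg (‖ζ‖ - η)]
    nlinarith
  · intro ζ hζ
    rw [mem_closedBall_zero_iff] at hζ
    have h1 : (3:ℝ) / 4 ≤ ‖1 - ζ‖ := by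
      have h0 := norm_sub_norm_le (1 : ℂ) ζ
      rw [norm_one] at h0
      linarith
    have h2 : ((3:ℝ) / 4) ^ 2 ≤ ‖1 - ζ‖ ^ 2 := pow_le_pow_left₀ (by norm_num) h1 2
    have h3 : ε * ‖ζ‖ ^ 2 ≤ 1 / 8 := by
      have h4 : ‖ζ‖ ^ 2 ≤ ϑ ^ 2 := pow_le_pow_left₀ (norm_nonneg _) hζ 2
      have h5 : ε * ‖ζ‖ ^ 2 ≤ ε * ϑ ^ 2 := mul_le_mul_of_nonneg_left h4 hε.le
      nlinarith
    nlinarith
  · intro ζ' hζ' h0
    rw [mem_closedBall_zero_iff] at hζ'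
    have h6 : 0 < ‖ζ'‖ := norm_pos_iff.2 h0
    have n1 : ‖2 * (starRingEnd ℂ) ζ'‖ = 2 * ‖ζ'‖ := by
      rw [norm_mul, RCLike.norm_conj]
      norm_num
    have n2 : (2 * (starRingEnd ℂ) ζ').re = 2 * ζ'.re := by
      simp
    obtain ⟨C, hC⟩ := H (2 * (starRingEnd ℂ) ζ') (by
      intro h
      rw [h, norm_zero] at n1
      linarith) (by
      rw [n1]
      linarith)
    refine ⟨C, fun ψ h hS R hR => ?_⟩
    have h2 := hC ψ h hS R hR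
    rw [n1, n2] at h2
    have e2 : 1 - 2 * ζ'.re + (1 / 4 + ε / 8) * (2 * ‖ζ'‖) ^ 2 =
        1 - 2 * ζ'.re + (1 - 4 * -(ε / 8)) * ‖ζ'‖ ^ 2 := by ring
    rw [e2] at h2
    exact h2

end Pool.Agent.Helper33.G5
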